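import Pool.Agent.H63.GG4

set_option autoImplicit false

namespace Pool.Agent.Results.MP_68c508_lc.Undec

theorem result : ¬ ComputablePred (Pool.Agent.H63.GG.Theory Pool.Agent.H72.GrigDefs.G) :=
  Pool.Agent.H63.GG.undec

end Pool.Agent.Results.MP_68c508_lc.Undec
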